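import Pool.Agent.Lib.MP_b1a3a4_al.MVS.TH.Iface

/-!
# Project MVS, part V: AGEO (13.32)
-/

set_option linter.all false

namespace Pool.Agent.Lib.MP_b1a3a4_al.MVS.TH.H59

open Pool.Agent.Lib.MP_b1a3a4_al.MVS.TH

lemma kt_anti {V : Type} (K : Set (Finset V)) (h : V → ℝ) {s t : ℝ} (hst : s ≤ t) :
    kt K h t ⊆ kt K h s := fun σ hσ => ⟨hσ.1, fun v hv => hst.trans (hσ.2 v hv)⟩

lemma Rz_mono {V : Type} {K K' : Set (Finset V)} (hK : K ⊆ K') : Rz K ⊆ Rz K' := by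
  rintro x ⟨h0, σ, hσ, h1, h2⟩
  exact ⟨h0, σ, hK hσ, h1, h2⟩

theorem ageo (hBeta : BetaStatement) (hSmall : SmallStatement) (hRetr : RetrStatement) :
    AgeoStatement := by
  intro S V _ _ χ n K h lam G
  obtain ⟨B, hB, hadj⟩ := G.adj
  refine ⟨G.labs, fun s t hst => Rz_mono (kt_anti K h hst), B, 0, hB, le_rfl, ?_⟩
  intro B₁ hB₁ hBB
  obtain ⟨β, D, hD, hβ, hβml⟩ := hBeta S V χ n K h lam G B₁ hB₁
  refine ⟨β, D, hD, hβ, ?_⟩
  intro t k hk f hf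
  obtain ⟨m, L, hL, hLR⟩ := hSmall V (kt K h t)
    (fun σ hσ τ hτ hne => ⟨G.down σ hσ.1 τ hτ hne, fun v hv => hσ.2 v (hτ hv)⟩) k f hf
  have hbd : ∀ c : Lab V k, img c ∈ kt K h t → Bd lam B c := by
    intro c hc x y
    exact hadj _ hc.1 _ ((mem_img c _).2 ⟨x, rfl⟩) _ ((mem_img c _).2 ⟨y, rfl⟩)
  refine ⟨m, L, ?_, ?_⟩
  · intro i ε p hp
    have hc := hL i ε p hp
    refine ⟨hbd _ hc, fun x => ?_⟩
    have := hc.2 _ ((mem_img _ _).2 ⟨x, rfl⟩)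
    simpa using this
  · intro D' hD' R hRc hR hext
    obtain ⟨H, hH, hHb⟩ := hLR R hRc (by
      intro i ε p hp x
      have hc := hL i ε p hp
      have e1 := hR i ε p hp x
      rw [hβml k hk.le _ (bd_mono hBB (hbd _ hc)) hc.1] at e1
      exact e1)
    obtain ⟨g, hg, hgB, hgR⟩ := hext
    have hsub : Rz (kt K h t) ⊆ Rz (kt K h (t - D')) :=
      Rz_mono (kt_anti K h (by linarith))
    obtain ⟨F, hF, hFB, hF0, hFb⟩ := hRetr (V → ℝ) (k + 1) (Rz (kt K h (t - D'))) g H hg hgB hH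
      (fun x hx => ⟨fun s => hsub ((hHb x hx).1 s), by rw [(hHb x hx).2.1, hgR x hx]⟩)
    refine ⟨fun x => F x 1, ?_, fun x => hFB x 1, fun x hx => ?_⟩
    · exact (ContinuousEvalConst.continuous_eval_const (1 : unitInterval)).comp hF
    · simp only [hFb x hx, (hHb x hx).2.2]

end Pool.Agent.Lib.MP_b1a3a4_al.MVS.TH.H59
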