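import Pool.Agent.Lib.MP_b1a3a4_al.MVS.TH.Iface

/-!
# Project MVS, part V: COMPACT (13.29)
-/

set_option linter.all false

namespace Pool.Agent.Lib.MP_b1a3a4_al.MVS.TH.H59

open Pool.Agent.Lib.MP_b1a3a4_al.MVS.TH

/-- Vertices at bounded distance have heights at bounded distance. -/
theorem bdh {S V : Type} [Group S] [MulAction S V] {χ : S →* Multiplicative ℝ} {h : V → ℝ}
    {lam : V → S} (L : LabS S V χ h lam) {B : Set S} (hB : B.Finite) :
    ∃ C : ℝ, 0 ≤ C ∧ ∀ v w, (lam v)⁻¹ * lam w ∈ B → |h w - h v| ≤ C := by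
  obtain ⟨C1, hC1⟩ := (L.fib.image (fun v => |h v|)).bddAbove
  obtain ⟨C2, hC2⟩ := (hB.image (fun b => |Multiplicative.toAdd (χ b)|)).bddAbove
  have h1 : ∀ v, lam v = 1 → |h v| ≤ C1 := fun v hv => hC1 ⟨v, hv, rfl⟩
  have h2 : ∀ b ∈ B, |Multiplicative.toAdd (χ b)| ≤ C2 := fun b hb => hC2 ⟨b, hb, rfl⟩
  refine ⟨2 * |C1| + |C2|, by positivity, fun v w hvw => ?_⟩
  have key : ∀ v, h v = h ((lam v)⁻¹ • v) + Multiplicative.toAdd (χ (lam v)) := by
    intro v
    have := L.ht (lam v) ((lam v)⁻¹ • v)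
    rwa [smul_inv_smul] at this
  have hlam : ∀ v, lam ((lam v)⁻¹ • v) = 1 := by
    intro v; rw [L.smul]; simp
  have h3 : Multiplicative.toAdd (χ (lam w)) = Multiplicative.toAdd (χ (lam v)) +
      Multiplicative.toAdd (χ ((lam v)⁻¹ * lam w)) := by
    rw [← toAdd_mul, ← map_mul, mul_inv_cancel_left]
  have e1 := h1 _ (hlam v)
  have e2 := h1 _ (hlam w)
  have e3 := h2 _ hvw
  have k1 := key v
  have k2 := key w
  have a1 := le_abs_self C1
  have a2 := le_abs_self C2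
  rw [abs_le] at e1 e2 e3 ⊢
  constructor <;> linarith [e1.1, e1.2, e2.1, e2.2, e3.1, e3.2]

theorem compact : CompactStatement := by
  intro S V _ _ χ n K h lam G q f hf hfK
  obtain ⟨B, hB, hadj⟩ := G.adj
  obtain ⟨C, hC0, hC⟩ := bdh G.labs hB
  have hopen : ∀ v, IsOpen {x : Cu q | 0 < f x v} := by
    intro v
    exact isOpen_lt continuous_const ((continuous_apply v).comp hf)
  have hcov : (Set.univ : Set (Cu q)) ⊆ ⋃ v, {x : Cu q | 0 < f x v} := by
    intro x _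
    obtain ⟨h0, σ, hσ, hs, hsum⟩ := hfK x
    have : ∃ v ∈ σ, 0 < f x v := by
      by_contra hcon
      push Not at hcon
      have : ∑ v ∈ σ, f x v ≤ 0 := Finset.sum_nonpos hcon
      rw [hsum] at this
      linarith
    obtain ⟨v, _, hv⟩ := this
    exact Set.mem_iUnion.2 ⟨v, hv⟩
  obtain ⟨T, hT⟩ := isCompact_univ.elim_finite_subcover _ hopen hcov
  refine ⟨C + ∑ v ∈ T, |h v|, fun x => ?_⟩
  obtain ⟨v, hvT, hv⟩ : ∃ v ∈ T, 0 < f x v := by
    have := hT (Set.mem_univ x)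
    simpa using this
  obtain ⟨h0, σ, hσ, hs, hsum⟩ := hfK x
  have hvσ : v ∈ σ := by
    by_contra hcon
    have := hs v hcon
    linarith
  refine ⟨h0, σ, ⟨hσ, fun w hw => ?_⟩, hs, hsum⟩
  have e1 := hC v w (hadj σ hσ v hvσ w hw)
  have e2 : |h v| ≤ ∑ v ∈ T, |h v| :=
    Finset.single_le_sum (f := fun v => |h v|) (fun i _ => abs_nonneg _) hvT
  rw [abs_le] at e1
  have e3 := neg_abs_le (h v)
  linarith [e1.1]

end Pool.Agent.Lib.MP_b1a3a4_al.MVS.TH.H59
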