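import Pool.Agent.Lib.MP_b1a3a4_al.MVS.TH.Iface

/-!
# Project MVS, part V: HATBASE (13.14)
-/

set_option linter.all false

namespace Pool.Agent.Lib.MP_b1a3a4_al.MVS.TH.H59

open Pool.Agent.Lib.MP_b1a3a4_al.MVS.TH

/-- the projection to the unit interval -/
noncomputable def pj (t : ℝ) : unitInterval := Set.projIcc 0 1 zero_le_one t

lemma continuous_pj : Continuous pj := continuous_projIcc (h := zero_le_one)

lemma pj_val (x : unitInterval) : pj (x : ℝ) = x := Set.projIcc_val zero_le_one x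

lemma pj_zero {t : ℝ} (h : t ≤ 0) : pj t = 0 := Set.projIcc_of_le_left zero_le_one h

lemma pj_one {t : ℝ} (h : 1 ≤ t) : pj t = 1 := Set.projIcc_of_right_le zero_le_one h

lemma pj_coe {t : ℝ} (h0 : 0 ≤ t) (h1 : t ≤ 1) : (pj t : ℝ) = t := by
  rw [pj, Set.projIcc_of_mem zero_le_one ⟨h0, h1⟩]

/-- the point with the first two coordinates `u`, `v` -/
def E2 {r : ℕ} (u v : unitInterval) (z : Cu r) : Cu (r + 2) := ins 0 u (ins 0 v z)

@[simp] lemma E2_zero {r : ℕ} (u v : unitInterval) (z : Cu r) : E2 u v z 0 = u := ins_same _ _ _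

@[simp] lemma E2_one {r : ℕ} (u v : unitInterval) (z : Cu r) : E2 u v z 1 = v := by
  have h : (1 : Fin (r + 2)) = (0 : Fin (r + 2)).succAbove 0 := by simp
  rw [h, E2, ins_succAbove, ins_same]

@[simp] lemma E2_succ {r : ℕ} (u v : unitInterval) (z : Cu r) (k : Fin r) :
    E2 u v z k.succ.succ = z k := by
  have h : k.succ.succ = (0 : Fin (r + 2)).succAbove ((0 : Fin (r + 1)).succAbove k) := by simp
  rw [h, E2, ins_succAbove, ins_succAbove]

lemma continuous_E2 {X : Type} [TopologicalSpace X] {r : ℕ} {α β : X → unitInterval}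
    {γ : X → Cu r} (hα : Continuous α) (hβ : Continuous β) (hγ : Continuous γ) :
    Continuous (fun x => E2 (α x) (β x) (γ x)) := by
  refine continuous_pi (fun j => ?_)
  refine Fin.cases ?_ (fun j => ?_) j
  · simpa using hα
  · refine Fin.cases ?_ (fun k => ?_) j
    · have h : (0 : Fin (r + 1)).succ = (1 : Fin (r + 2)) := by simp
      simp only [h, E2_one]
      exact hβ
    · simp only [E2_succ]
      exact (continuous_apply k).comp hγ

lemma E2_fi0 {r : ℕ} (ε : Bool) (x : Cu (r + 1)) :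
    fi 0 ε x = E2 (ev ε) (x 0) (rem 0 x) := by
  rw [E2, ins_rem]; rfl

lemma E2_fi1 {r : ℕ} (ε : Bool) (x : Cu (r + 1)) :
    fi 1 ε x = E2 (x 0) (ev ε) (rem 0 x) := by
  funext j
  refine Fin.cases ?_ (fun j => ?_) j
  · have h : (0 : Fin (r + 2)) = (1 : Fin (r + 2)).succAbove 0 := by
      simp
    rw [E2_zero]
    conv_lhs => rw [h]
    rw [fi, ins_succAbove]
  · refine Fin.cases ?_ (fun k => ?_) j
    · have h : (0 : Fin (r + 1)).succ = (1 : Fin (r + 2)) := by simp
      simp only [h, E2_one]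
      rw [fi, ins_same]
    · simp only [E2_succ, rem_apply, Fin.succAbove_zero]
      have h : k.succ.succ = (1 : Fin (r + 2)).succAbove k.succ := by
        rw [show (1 : Fin (r + 2)) = (0 : Fin (r + 1)).succ by simp, Fin.succ_succAbove_succ]
        simp
      rw [fi, h, ins_succAbove]

section

variable {Z : Type} [TopologicalSpace Z] {B : Set Z} {y : Z} {r : ℕ} {F : Cu (r + 2) → Z}

lemma gd_two (hF : Gd2 B y F) {u v : unitInterval} {z : Cu r} (hu : u = 0 ∨ u = 1)
    (hv : v = 0 ∨ v = 1) : F (E2 u v z) = y := by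
  refine hF.2.2 _ ⟨0, 1, by simp, ?_, ?_⟩
  · simpa using hu
  · simpa using hv

lemma gd_z (hd : ∀ i : Fin (r + 2), i ≠ 0 → i ≠ 1 → ∀ ε x, F (fi i ε x) = y)
    {u v : unitInterval} {z : Cu r} {k : Fin r} (hz : z k = 0 ∨ z k = 1) :
    F (E2 u v z) = y := by
  have hk0 : k.succ.succ ≠ (0 : Fin (r + 2)) := Fin.succ_ne_zero _
  have hk1 : k.succ.succ ≠ (1 : Fin (r + 2)) := by
    rw [show (1 : Fin (r + 2)) = (0 : Fin (r + 1)).succ by simp]
    intro h
    exact Fin.succ_ne_zero _ (Fin.succ_injective _ h)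
  have h1 := ins_rem k.succ.succ (E2 u v z)
  rw [E2_succ] at h1
  rcases hz with hz | hz
  · rw [← h1, hz]
    exact hd _ hk0 hk1 false _
  · rw [← h1, hz]
    exact hd _ hk0 hk1 true _

/-- the path of the pair of the first two coordinates -/
noncomputable def pp (s : unitInterval) (u : unitInterval) : unitInterval :=
  pj ((1 - (s : ℝ)) * (pj (2 * u) : ℝ) + (s : ℝ) * (pj (2 * u - 1) : ℝ))

noncomputable def qq (s : unitInterval) (u : unitInterval) : unitInterval :=
  pj ((1 - (s : ℝ)) * (pj (2 * u - 1) : ℝ) + (s : ℝ) * (pj (2 * u) : ℝ))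

lemma continuous_pp : Continuous (fun p : unitInterval × unitInterval => pp p.1 p.2) := by
  have h1 := continuous_pj
  unfold pp
  refine h1.comp ?_
  have h2 : Continuous (fun p : unitInterval × unitInterval => (pj (2 * (p.2 : ℝ)) : ℝ)) :=
    continuous_subtype_val.comp (h1.comp (by fun_prop))
  have h3 : Continuous (fun p : unitInterval × unitInterval => (pj (2 * (p.2 : ℝ) - 1) : ℝ)) :=
    continuous_subtype_val.comp (h1.comp (by fun_prop))
  have h4 : Continuous (fun p : unitInterval × unitInterval => (p.1 : ℝ)) := by fun_prop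
  exact ((continuous_const.sub h4).mul h2).add (h4.mul h3)

lemma continuous_qq : Continuous (fun p : unitInterval × unitInterval => qq p.1 p.2) := by
  have h1 := continuous_pj
  unfold qq
  refine h1.comp ?_
  have h2 : Continuous (fun p : unitInterval × unitInterval => (pj (2 * (p.2 : ℝ)) : ℝ)) :=
    continuous_subtype_val.comp (h1.comp (by fun_prop))
  have h3 : Continuous (fun p : unitInterval × unitInterval => (pj (2 * (p.2 : ℝ) - 1) : ℝ)) :=
    continuous_subtype_val.comp (h1.comp (by fun_prop))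
  have h4 : Continuous (fun p : unitInterval × unitInterval => (p.1 : ℝ)) := by fun_prop
  exact ((continuous_const.sub h4).mul h3).add (h4.mul h2)

lemma pp_zero (s : unitInterval) : pp s 0 = 0 ∧ qq s 0 = 0 := by
  have h1 : pj (2 * ((0 : unitInterval) : ℝ)) = 0 := pj_zero (by simp)
  have h2 : pj (2 * ((0 : unitInterval) : ℝ) - 1) = 0 := pj_zero (by norm_num)
  constructor
  · rw [pp, h1, h2]; exact pj_zero (by simp)
  · rw [qq, h1, h2]; exact pj_zero (by simp)

lemma pp_one (s : unitInterval) : pp s 1 = 1 ∧ qq s 1 = 1 := by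
  have h1 : pj (2 * ((1 : unitInterval) : ℝ)) = 1 := pj_one (by norm_num)
  have h2 : pj (2 * ((1 : unitInterval) : ℝ) - 1) = 1 := pj_one (by norm_num)
  constructor
  · rw [pp, h1, h2]; exact pj_one (by simp)
  · rw [qq, h1, h2]; exact pj_one (by simp)

lemma pp_s0 (u : unitInterval) : pp 0 u = pj (2 * u) ∧ qq 0 u = pj (2 * u - 1) := by
  constructor
  · rw [pp]; simp [pj_val]
  · rw [qq]; simp [pj_val]

lemma pp_s1 (u : unitInterval) : pp 1 u = pj (2 * u - 1) ∧ qq 1 u = pj (2 * u) := by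
  constructor
  · rw [pp]; simp [pj_val]
  · rw [qq]; simp [pj_val]

/-- the homotopy -/
noncomputable def hh (F : Cu (r + 2) → Z) (x : Cu (r + 1)) (s : unitInterval) : Z :=
  F (E2 (pp s (x 0)) (qq s (x 0)) (rem 0 x))

lemma continuous_hh (hF : Continuous F) :
    Continuous (fun p : Cu (r + 1) × unitInterval => hh F p.1 p.2) := by
  unfold hh
  refine hF.comp (continuous_E2 ?_ ?_ ?_)
  · exact continuous_pp.comp (continuous_snd.prodMk ((continuous_apply 0).comp continuous_fst))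
  · exact continuous_qq.comp (continuous_snd.prodMk ((continuous_apply 0).comp continuous_fst))
  · exact (continuous_rem 0).comp continuous_fst

lemma hh_bd (hF : Gd2 B y F)
    (hd : ∀ i : Fin (r + 2), i ≠ 0 → i ≠ 1 → ∀ ε x, F (fi i ε x) = y) {x : Cu (r + 1)}
    (hx : x ∈ Cube.boundary (Fin (r + 1))) (s : unitInterval) : hh F x s = y := by
  obtain ⟨i, hi⟩ := hx
  revert hi
  refine Fin.cases ?_ (fun k => ?_) i
  · rintro (h | h)
    · rw [hh, h, (pp_zero s).1, (pp_zero s).2]
      exact gd_two hF (Or.inl rfl) (Or.inl rfl)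
    · rw [hh, h, (pp_one s).1, (pp_one s).2]
      exact gd_two hF (Or.inr rfl) (Or.inr rfl)
  · intro h
    refine gd_z hd (k := k) ?_
    simpa using h

lemma hh_good (hF : Gd2 B y F)
    (hd : ∀ i : Fin (r + 2), i ≠ 0 → i ≠ 1 → ∀ ε x, F (fi i ε x) = y) (s : unitInterval) :
    Good B y (fun x : Cu (r + 1) => hh F x s) := by
  refine ⟨?_, fun x => hF.2.1 _, fun x hx => hh_bd hF hd hx s⟩
  exact (continuous_hh hF.1).comp (continuous_id.prodMk continuous_const)

end

theorem hatbase : HatbaseStatement := by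
  intro Z _ B y r P _ cl hcl F hF hd
  have ga := hh_good hF hd 0
  have gb := hh_good hF hd 1
  have hab : Hq B y (fun x : Cu (r + 1) => hh F x 0) (fun x => hh F x 1) := by
    refine ⟨fun x => ⟨fun s => hh F x s, ?_⟩, ?_, ?_, ?_, ?_, ?_⟩
    · exact (continuous_hh hF.1).comp (continuous_const.prodMk continuous_id)
    · exact ContinuousMap.continuous_of_continuous_uncurry _ (continuous_hh hF.1)
    · intro x s; exact hF.2.1 _
    · intro x; rfl
    · intro x; rfl
    · intro x hx s; exact hh_bd hF hd hx s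
  have hcc := (hcl.htpy _ _ ga gb).2 hab
  have ma := hcl.mul _ ga 0 (by
    intro x hx
    have h1 : pj (2 * (x 0 : ℝ)) = 1 := pj_one (by rw [hx]; norm_num)
    have h2 : pj (2 * (x 0 : ℝ) - 1) = 0 := pj_zero (by rw [hx]; norm_num)
    rw [hh, (pp_s0 _).1, (pp_s0 _).2, h1, h2]
    exact gd_two hF (Or.inr rfl) (Or.inl rfl))
  have mb := hcl.mul _ gb 0 (by
    intro x hx
    have h1 : pj (2 * (x 0 : ℝ)) = 1 := pj_one (by rw [hx]; norm_num)
    have h2 : pj (2 * (x 0 : ℝ) - 1) = 0 := pj_zero (by rw [hx]; norm_num)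
    rw [hh, (pp_s1 _).1, (pp_s1 _).2, h1, h2]
    exact gd_two hF (Or.inl rfl) (Or.inr rfl))
  have hL0 : ∀ x : Cu (r + 1), ((halfL 0 x) 0 : ℝ) = (x 0 : ℝ) / 2 := by
    intro x
    have h0 := (x 0).2.1
    have h1 := (x 0).2.2
    rw [halfL, Function.update_self]
    exact pj_coe (by linarith) (by linarith)
  have hR0 : ∀ x : Cu (r + 1), ((halfR 0 x) 0 : ℝ) = (1 + (x 0 : ℝ)) / 2 := by
    intro x
    have h0 := (x 0).2.1
    have h1 := (x 0).2.2
    rw [halfR, Function.update_self]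
    exact pj_coe (by linarith) (by linarith)
  have hLr : ∀ x : Cu (r + 1), rem 0 (halfL 0 x) = rem 0 x := by
    intro x; funext j
    simp [halfL, Fin.succ_ne_zero]
  have hRr : ∀ x : Cu (r + 1), rem 0 (halfR 0 x) = rem 0 x := by
    intro x; funext j
    simp [halfR, Fin.succ_ne_zero]
  have aL : (fun x : Cu (r + 1) => hh F (halfL 0 x) 0) = fun x => F (fi 1 false x) := by
    funext x
    have h0 := (x 0).2.1
    have h1 := (x 0).2.2
    rw [hh, hLr, (pp_s0 _).1, (pp_s0 _).2, hL0, E2_fi1,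
      show 2 * ((x 0 : ℝ) / 2) = (x 0 : ℝ) by ring, pj_val,
      pj_zero (show (x 0 : ℝ) - 1 ≤ 0 by linarith)]
    rfl
  have aR : (fun x : Cu (r + 1) => hh F (halfR 0 x) 0) = fun x => F (fi 0 true x) := by
    funext x
    have h0 := (x 0).2.1
    have h1 := (x 0).2.2
    rw [hh, hRr, (pp_s0 _).1, (pp_s0 _).2, hR0, E2_fi0,
      show 2 * ((1 + (x 0 : ℝ)) / 2) = 1 + (x 0 : ℝ) by ring,
      pj_one (show 1 ≤ 1 + (x 0 : ℝ) by linarith),
      show 1 + (x 0 : ℝ) - 1 = (x 0 : ℝ) by ring, pj_val]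
    rfl
  have bL : (fun x : Cu (r + 1) => hh F (halfL 0 x) 1) = fun x => F (fi 0 false x) := by
    funext x
    have h0 := (x 0).2.1
    have h1 := (x 0).2.2
    rw [hh, hLr, (pp_s1 _).1, (pp_s1 _).2, hL0, E2_fi0,
      show 2 * ((x 0 : ℝ) / 2) = (x 0 : ℝ) by ring, pj_val,
      pj_zero (show (x 0 : ℝ) - 1 ≤ 0 by linarith)]
    rfl
  have bR : (fun x : Cu (r + 1) => hh F (halfR 0 x) 1) = fun x => F (fi 1 true x) := by
    funext x
    have h0 := (x 0).2.1
    have h1 := (x 0).2.2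
    rw [hh, hRr, (pp_s1 _).1, (pp_s1 _).2, hR0, E2_fi1,
      show 2 * ((1 + (x 0 : ℝ)) / 2) = 1 + (x 0 : ℝ) by ring,
      pj_one (show 1 ≤ 1 + (x 0 : ℝ) by linarith),
      show 1 + (x 0 : ℝ) - 1 = (x 0 : ℝ) by ring, pj_val]
    rfl
  rw [aL, aR] at ma
  rw [bL, bR] at mb
  rw [← ma, ← mb, hcc]

end Pool.Agent.Lib.MP_b1a3a4_al.MVS.TH.H59
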