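import Pool.Agent.Lib.MP_b1a3a4_al.MVS.TH.Iface

/-!
# Project MVS, part V: HATC (13.19)
-/

set_option linter.all false

namespace Pool.Agent.Lib.MP_b1a3a4_al.MVS.TH.H59

open Pool.Agent.Lib.MP_b1a3a4_al.MVS.TH

lemma good_face {Z : Type} [TopologicalSpace Z] {B : Set Z} {y : Z} {r : ℕ} {F : Cu (r + 2) → Z}
    (hF : Gd2 B y F) (i : Fin (r + 2)) (ε : Bool) : Good B y (fun x => F (fi i ε x)) := by
  refine ⟨hF.1.comp (continuous_fi i ε), fun x => hF.2.1 _, ?_⟩
  rintro x ⟨j, hj⟩
  refine hF.2.2 _ ⟨i, i.succAbove j, (Fin.succAbove_ne i j).symm, ?_, ?_⟩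
  · cases ε <;> simp [fi]
  · rw [fi, ins_succAbove]; exact hj

theorem hatc (hC0 : Hatc0Statement) (hHat : HatStatement) (hBase : HatbaseStatement) :
    HatcStatement := by
  constructor
  · intro Z _ B y r P _ cl hcl f hfc hfg hSg
    obtain ⟨F, hF, hFf, hext⟩ := hC0 Z B y (r + 1) f hfc hfg
    refine hext ((hcl.htpy _ _ (good_face hF 0 true) (hfg 0 true)).1 ?_)
    have h1 := hHat Z B y r P cl hcl F hF
    have h2 : Sg cl F - Sg cl f = 0 := by rw [h1, hSg, sub_zero]
    have hne : ∀ i : Fin (r + 3), ∀ ε, (i, ε) ≠ (0, true) →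
        (fun x => F (fi i ε x)) = fun x => f (fi i ε x) := fun i ε h =>
      funext (fun x => hFf i ε h x)
    rw [Sg, Sg, Fin.sum_univ_succ, Fin.sum_univ_succ (fun i : Fin (r + 3) => ((-1 : ℤ) ^ (i : ℕ)) •
      (cl (fun x => f (fi i true x)) - cl (fun x => f (fi i false x))))] at h2
    have h3 : ∀ i : Fin (r + 2), ((-1 : ℤ) ^ ((i.succ : Fin (r + 3)) : ℕ)) •
        (cl (fun x => F (fi i.succ true x)) - cl (fun x => F (fi i.succ false x))) =
        ((-1 : ℤ) ^ ((i.succ : Fin (r + 3)) : ℕ)) •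
        (cl (fun x => f (fi i.succ true x)) - cl (fun x => f (fi i.succ false x))) := by
      intro i
      rw [hne i.succ true (by simp [Fin.succ_ne_zero]), hne i.succ false (by simp)]
    rw [Finset.sum_congr rfl (fun i _ => h3 i), hne 0 false (by simp)] at h2
    simp only [Fin.val_zero, pow_zero, one_smul] at h2
    have h4 : cl (fun x => F (fi 0 true x)) - cl (fun x => f (fi 0 true x)) = 0 := by
      rw [← h2]; abel
    exact sub_eq_zero.1 h4
  · intro Z _ B y P _ cl hcl f hfc hfg hrel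
    obtain ⟨F, hF, hFf, hext⟩ := hC0 Z B y 0 f hfc hfg
    refine hext ((hcl.htpy _ _ (good_face hF 0 true) (hfg 0 true)).1 ?_)
    have h1 := hBase Z B y 0 P cl hcl F hF (by
      intro i h0 h1
      exfalso
      have hi := i.2
      have h0' : (i : ℕ) ≠ 0 := fun h => h0 (Fin.ext h)
      have h1' : (i : ℕ) ≠ 1 := fun h => h1 (Fin.ext h)
      omega)
    have hne : ∀ i : Fin 2, ∀ ε, (i, ε) ≠ (0, true) →
        (fun x => F (fi i ε x)) = fun x => f (fi i ε x) := fun i ε h =>
      funext (fun x => hFf i ε h x)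
    have e1 := hne 1 false (by simp)
    have e2 := hne 1 true (by simp)
    have e3 := hne 0 false (by simp)
    have h2 : cl (fun x => f (fi 1 false x)) * cl (fun x => F (fi 0 true x)) =
      cl (fun x => f (fi 0 false x)) * cl (fun x => f (fi 1 true x)) := by
      rw [← e1, ← e2, ← e3]; exact h1
    rw [← hrel] at h2
    exact mul_left_cancel h2

end Pool.Agent.Lib.MP_b1a3a4_al.MVS.TH.H59
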